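import Pool.Agent.Lib.MP_d713a4_nt.Main

/-!
The exponent `1/2` in the error term of Q1 is optimal.
-/

set_option autoImplicit false

namespace Pool.Agent.Results.MP_d713a4_nt.OptimalExponent

open Pool.Agent.Lib.MP_d713a4_nt

/-- Assume the Riemann hypothesis for all `L(s, χ_n)`, `n` odd squarefree (`GRH`); `FF X r` is the sum of the `L'/L(1/2 + r, χ_n)` over
the odd squarefree `n ≤ X`.

(1) Let `0 < σ < 1/4`, `δ > 0`.  For all small `ε > 0` there are no functions `A`, `B` whatever with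
`FF X r = X A(r) + X^(1-r) B(r) + O(X^(1/2 - σ - δ))` for all large `X` and all `r` with `Re r = σ`, `|Im r| ≤ X^(1-ε)`.

(2) So the formula of Q1, whose main terms are `X M1(r) - X^(1-r) M2(r)`, does not hold with an error term `O(X^θ)`, `θ < 1/2`, for
`c / log X ≤ Re r ≤ c'`, `|Im r| ≤ X^(1-ε)`, however small `ε > 0`, `c' > 0` and however large `c` are (`ε ≤ ε₀(θ, c')`). -/
theorem result (g : GRH) :
    (∀ σ δ : ℝ, 0 < σ → σ < 1 / 4 → 0 < δ → ∃ ε₀ : ℝ, 0 < ε₀ ∧ ∀ ε : ℝ, ε ≤ ε₀ → ∀ A B : ℂ → ℂ,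
      ¬ ∃ C X₀ : ℝ, ∀ X : ℝ, X₀ ≤ X → ∀ r : ℂ, r.re = σ → |r.im| ≤ X ^ (1 - ε) →
        ‖FF X r - X * A r - (X : ℂ) ^ (1 - r) * B r‖ ≤ C * X ^ (1 / 2 - σ - δ)) ∧
    (∀ θ c' : ℝ, θ < 1 / 2 → 0 < c' → ∃ ε₀ : ℝ, 0 < ε₀ ∧ ∀ ε : ℝ, ε ≤ ε₀ → ∀ c : ℝ,
      ¬ ∃ C X₀ : ℝ, ∀ X : ℝ, X₀ ≤ X → ∀ r : ℂ, c / Real.log X ≤ r.re → r.re ≤ c' → |r.im| ≤ X ^ (1 - ε) →
        ‖FF X r - (X * M1 r - (X : ℂ) ^ (1 - r) * M2 r)‖ ≤ C * X ^ θ) :=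
  ⟨fun σ δ h0 h1 hδ => main g σ δ h0 h1 hδ, fun θ c' h1 h2 => main_Q1 g θ c' h1 h2⟩

end Pool.Agent.Results.MP_d713a4_nt.OptimalExponent
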